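import Pool.Agent.NBT.StmtsC

/-!
# NBT squad (MP_e54c4c_gt), row RGB: a set with an arrow leaving it is not rigid
-/

set_option autoImplicit false

open Matrix Filter Topology

namespace Pool.Agent.NBT.H80

open Pool.Agent.PFS Pool.Agent.PFJ

variable {n K : ℕ}

theorem img_inj (g : GL (Fin n) ℝ) {L L' : Submodule ℝ (V n)} (h : img g L = img g L') :
    L = L' := by
  have key : ∀ A B : Submodule ℝ (V n), img g A = img g B → A ≤ B := by
    intro A B hAB x hx
    have h1 : act g x ∈ img g A := mem_img.mpr ⟨x, hx, rfl⟩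
    rw [hAB] at h1
    obtain ⟨y, hy, hyx⟩ := mem_img.mp h1
    have h2 : y = x := CC.act_injective g hyx
    rw [← h2]
    exact hy
  exact _root_.le_antisymm (key _ _ h) (key _ _ h.symm)

/-- the vertices of a simplex are in the closed cone -/
theorem vert_cl {C : Set (V n)} {Γ Γ₀ : Subgroup (GL (Fin n) ℝ)} {T : (Fin K → V n) → Prop}
    {c : Finset (Fin K) → ℕ} (h : TB C Γ Γ₀ T c) {w : Fin K → V n} (hw : T w) (i : Fin K) :
    w i ∈ closure C := by
  obtain ⟨t, ht, u, hu, hx⟩ := (h.pes w hw).2 i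
  rw [hx]
  exact h.cc.toPCone.cl_smul hu.2.1 ht.le

theorem sum_mem {C : Set (V n)} {Γ Γ₀ : Subgroup (GL (Fin n) ℝ)} {T : (Fin K → V n) → Prop}
    {c : Finset (Fin K) → ℕ} (h : TB C Γ Γ₀ T c) {w : Fin K → V n} (hw : T w) :
    ∑ i, w i ∈ C := by
  have h1 := (h.pes w hw).1.pos (fun _ => 1) (fun _ => one_pos)
  simpa using h1

theorem rgb (TBF : TbfStmt) (BIN : BinStmt) (ZMI : ZmiStmt) (SXN : SxnStmt) (PUR : PurStmt)
    (NRF : NrfStmt) (ZLF : ZlfStmt) : RgbStmt := by
  classical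
  intro n C Γ Γ₀ K T c h S k r hkS hrS hArr hRig
  obtain ⟨ε, hε, hrig⟩ := hRig
  obtain ⟨w, x, hw, hmv, hsx⟩ := hArr
  obtain ⟨W, y, hW, hy, hyr⟩ := PUR n C Γ Γ₀ K T c h w hw k r x hmv hsx
  have hkr : k ≠ r := by
    intro h0
    exact hrS (h0 ▸ hkS)
  have hP := h.cc.toPCone
  -- `y ∈ B_{k,r}`
  have hykr : y ∈ BI C W {k, r} := by
    refine ((SXN n C Γ Γ₀ K T c h W hW k y hy).2.2 {k, r} (by simp)).mp ?_
    intro i hi
    have := (hyr i).mp hi
    simp [this]
  obtain ⟨t1, t2, t3, t4, t5, t6, t7, t8, t9, t10, t11, t12, t13⟩ := TBF n C Γ Γ₀ K T c h W hW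
  -- `y ∉ B_S`
  have hyS : y ∉ BI C W S := by
    intro h0
    have h1 : y ∈ BI C W ({k, r} ∩ S) := by
      rw [← t4]
      exact ⟨hykr, h0⟩
    have h2 : ({k, r} ∩ S : Finset (Fin K)) = {k} := by
      ext i
      simp only [Finset.mem_inter, Finset.mem_insert, Finset.mem_singleton]
      constructor
      · rintro ⟨hi | hi, hiS⟩
        · exact hi
        · exact absurd (hi ▸ hiS) hrS
      · intro hi
        exact ⟨Or.inl hi, hi ▸ hkS⟩
    rw [h2] at h1
    obtain ⟨a, ha⟩ := t8 k y h1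
    exact hy.ne a ha
  -- the other simplex
  have hW' : T (Function.update W k y) := hy.mem
  have hycl : y ∈ closure C := by
    have := vert_cl h hW' k
    simpa using this
  -- zoom
  obtain ⟨φ, g, s, V', P, Q, hφ, hg, hs, hZ, -, -⟩ :=
    ZMI n C Γ Γ₀ K T c h W hW ({k}ᶜ) (fun m => (m : ℝ)) tendsto_natCast_atTop_atTop
  have hθ : Tendsto (fun m => ((φ m : ℕ) : ℝ)) atTop atTop :=
    tendsto_natCast_atTop_atTop.comp hφ.tendsto_atTop
  obtain ⟨z1, z2, z3, z4, z5, z6, z7, z8⟩ := ZLF n C Γ Γ₀ K T c h W hW ({k}ᶜ)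
    (fun m => ((φ m : ℕ) : ℝ)) g s V' P Q hθ hg hs hZ
  have hPk : P (W k) = V' k := z1 k (by simp)
  have hPi : ∀ i, i ≠ k → P (W i) = 0 := fun i hi => z3 i (by simp [hi])
  have hV' : T V' := hZ.tw
  obtain ⟨u1, u2, u3, u4, u5, u6, u7, u8, u9, u10, u11, u12, u13⟩ := TBF n C Γ Γ₀ K T c h V' hV'
  -- `P y = κ V'_k`
  have hPf : P (fS W {k, r}) = V' k := by
    have h1 : fS W {k, r} = W k + W r := by
      simp [fS, Finset.sum_pair hkr]
    rw [h1, map_add, hPk, hPi r hkr.symm, add_zero]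
  have hPy : ∃ κ : ℝ, P y = κ • V' k := by
    obtain ⟨M, hM, hMy⟩ := (t1 {k, r}).2.2 y hykr
    have h2 : P (M • fS W {k, r} - y) ∈ closure C := z4 _ hMy
    rw [map_sub, map_smul, hPf] at h2
    have h3 : fS V' {k} = V' k := by simp [fS]
    have h4 : P y ∈ BI C V' {k} := by
      refine u2 {k} (P y) (z4 y hycl) M ?_
      rw [h3]
      exact h2
    exact u8 k (P y) h4
  obtain ⟨κ, hκ⟩ := hPy
  -- `κ > 0`
  have hVk : V' k ≠ 0 := by
    intro h0
    have h1 := (h.pes V' hV').2 k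
    obtain ⟨t, ht, u, hu, hx⟩ := h1
    rw [h0] at hx
    have h2 : u = 0 := by
      rcases smul_eq_zero.mp hx.symm with h3 | h3
      · exact absurd h3 ht.ne'
      · exact h3
    have h3 := hu.1
    rw [h2, norm_zero] at h3
    exact zero_ne_one h3
  have hVkcl : V' k ∈ closure C := vert_cl h hV' k
  have hsumP : P (∑ i, Function.update W k y i) = κ • V' k := by
    rw [map_sum, Finset.sum_eq_single k]
    · rw [Function.update_self, hκ]
    · intro i _ hik
      rw [Function.update_of_ne hik, hPi i hik]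
    · intro h0
      exact absurd (Finset.mem_univ k) h0
  have hκpos : 0 < κ := by
    obtain ⟨M, hM, hMc⟩ := hP.absorb (sum_mem h hW') (W k)
    have h1 : P (M • (∑ i, Function.update W k y i) - W k) ∈ closure C :=
      z4 _ (subset_closure hMc)
    rw [map_sub, map_smul, hsumP, hPk] at h1
    by_contra hneg
    push Not at hneg
    have h2 : (M • κ • V' k - V' k) + (1 - M * κ) • V' k = 0 := by
      rw [smul_smul, sub_smul, one_smul]
      abel
    have h3 : 0 ≤ 1 - M * κ := by nlinarith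
    have h4 : -(M • κ • V' k - V' k) ∈ closure C := by
      have h5 : -(M • κ • V' k - V' k) = (1 - M * κ) • V' k := by
        rw [neg_eq_iff_add_eq_zero]
        exact h2
      rw [h5]
      exact hP.cl_smul hVkcl h3
    have h5 := hP.salient _ h1 h4
    have h6 : (1 - M * κ) • V' k = 0 := by
      rw [h5, zero_add] at h2
      exact h2
    rcases smul_eq_zero.mp h6 with h7 | h7
    · nlinarith
    · exact hVk h7
  -- the sequences
  set ρ : ℕ → Fin K → ℝ :=
    fun m i => if i ∈ ({k}ᶜ : Finset (Fin K)) then Real.exp ((φ m : ℕ) : ℝ) else 1 with hρ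
  set σ : ℕ → Fin K → ℝ :=
    fun m i => if i ∈ ({k}ᶜ : Finset (Fin K)) then Real.exp ((φ m : ℕ) : ℝ) else κ⁻¹ with hσ
  have hρpos : ∀ m i, 0 < ρ m i := by
    intro m i
    simp only [hρ]
    split_ifs
    · exact Real.exp_pos _
    · exact one_pos
  have hσpos : ∀ m i, 0 < σ m i := by
    intro m i
    simp only [hσ]
    split_ifs
    · exact Real.exp_pos _
    · exact inv_pos.mpr hκpos
  -- subspaces
  have hbx := BIN n C Γ Γ₀ K T c h
  have hxT : ∀ m, T (fun i => s m • act (g m) (ρ m i • W i)) ∧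
      BI C (fun i => s m • act (g m) (ρ m i • W i)) S = img (g m) (BI C W S) := by
    intro m
    have h1 : T (fun i => ρ m i • W i) := h.scl W hW (ρ m) (hρpos m)
    obtain ⟨h2, h3⟩ := (hbx _ h1).2.1 (g m) (hg m) (s m) (hs m)
    refine ⟨h2, ?_⟩
    rw [h3 S, (hbx W hW).1 (ρ m) (hρpos m) S]
  have hyT : ∀ m, T (fun i => s m • act (g m) (σ m i • Function.update W k y i)) ∧
      BI C (fun i => s m • act (g m) (σ m i • Function.update W k y i)) S =
        img (g m) (BI C (Function.update W k y) S) := by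
    intro m
    have h1 : T (fun i => σ m i • Function.update W k y i) := h.scl _ hW' (σ m) (hσpos m)
    obtain ⟨h2, h3⟩ := (hbx _ h1).2.1 (g m) (hg m) (s m) (hs m)
    refine ⟨h2, ?_⟩
    rw [h3 S, (hbx _ hW').1 (σ m) (hσpos m) S]
  -- limits
  have hlimx : ∀ i, Tendsto (fun m => s m • act (g m) (ρ m i • W i)) atTop (𝓝 (V' i)) := by
    intro i
    exact hZ.lim i
  have hlimy : ∀ i, Tendsto (fun m => s m • act (g m) (σ m i • Function.update W k y i)) atTop
      (𝓝 (V' i)) := by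
    intro i
    by_cases hik : i = k
    · subst hik
      have h1 : Tendsto (fun m => s m • act (g m) (κ⁻¹ • y)) atTop (𝓝 (P (κ⁻¹ • y))) :=
        hZ.limP (fun _ => κ⁻¹ • y) (κ⁻¹ • y) tendsto_const_nhds
      rw [map_smul, hκ, smul_smul, inv_mul_cancel₀ hκpos.ne', one_smul] at h1
      refine h1.congr ?_
      intro m
      simp [hσ]
    · refine (hZ.lim i).congr ?_
      intro m
      have h2 : i ∈ ({k}ᶜ : Finset (Fin K)) := by simp [hik]
      simp only [hσ, if_pos h2, Function.update_of_ne hik]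
  have hnear := (NRF n C Γ K h.cc).2.1 ε _ _ V' hε (sum_mem h hV') hlimx hlimy
  obtain ⟨m, hm⟩ := hnear.exists
  have heq := hrig _ _ (hxT m).1 (hyT m).1 hm
  rw [(hxT m).2, (hyT m).2] at heq
  have heq2 := img_inj (g m) heq
  apply hyS
  rw [heq2]
  have h1 := (TBF n C Γ Γ₀ K T c h _ hW').2.2.2.2.2.1 k S
  rw [Function.update_self] at h1
  exact h1.mpr hkS

end Pool.Agent.NBT.H80
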