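import Pool.Agent.NBT.StmtsA

/-!
# NBT squad (MP_e54c4c_gt), row ZLX: existence of the zoom limit along `1_S`
-/

set_option autoImplicit false

open Matrix Filter Topology

namespace Pool.Agent.NBT.H80

open Pool.Agent.PFS Pool.Agent.PFJ

variable {n K : ℕ}

/-- a sequence of linear maps which is pointwise bounded on a subspace has a subsequence which
converges there, also along moving points -/
theorem lin_sub (D : Submodule ℝ (V n)) (G : ℕ → (V n →ₗ[ℝ] V n))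
    (hb : ∀ v ∈ D, ∃ B : ℝ, ∀ᶠ m in atTop, ‖G m v‖ ≤ B) :
    ∃ (φ : ℕ → ℕ) (Q : V n →ₗ[ℝ] V n), StrictMono φ ∧
      ∀ ψ : ℕ → ℕ, Tendsto ψ atTop atTop → ∀ (y : ℕ → V n) (y0 : V n), (∀ m, y m ∈ D) →
        Tendsto y atTop (𝓝 y0) → Tendsto (fun m => G (φ (ψ m)) (y m)) atTop (𝓝 (Q y0)) := by
  classical
  let b := Module.finBasis ℝ D
  have h1 : ∀ i, ∃ B : ℝ, ∀ᶠ m in atTop, ‖G m (b i : V n)‖ ≤ B := fun i => hb _ (b i).2
  choose B hB using h1
  let x : ℕ → (Fin (Module.finrank ℝ D) → V n) := fun m i => G m (b i : V n)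
  have h2 : ∀ᶠ m in atTop, x m ∈ Metric.closedBall (0 : Fin (Module.finrank ℝ D) → V n)
      (∑ i, |B i|) := by
    filter_upwards [eventually_all.mpr hB] with m hm
    rw [Metric.mem_closedBall, dist_zero_right]
    refine (pi_norm_le_iff_of_nonneg (Finset.sum_nonneg fun i _ => abs_nonneg _)).mpr ?_
    intro i
    refine (hm i).trans ((le_abs_self _).trans ?_)
    exact Finset.single_le_sum (f := fun i => |B i|) (fun j _ => abs_nonneg _) (Finset.mem_univ i)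
  obtain ⟨a, -, φ, hφ, ha⟩ := tendsto_subseq_of_frequently_bounded
    Metric.isBounded_closedBall h2.frequently
  obtain ⟨Q, hQ⟩ := (b.constr ℝ a : D →ₗ[ℝ] V n).exists_extend
  refine ⟨φ, Q, hφ, ?_⟩
  intro ψ hψ y y0 hy hy0
  have hy0D : y0 ∈ D :=
    (Submodule.closed_of_finiteDimensional D).mem_of_tendsto hy0 (Eventually.of_forall hy)
  have h3 : Tendsto (fun m => (⟨y m, hy m⟩ : D)) atTop (𝓝 ⟨y0, hy0D⟩) :=
    tendsto_subtype_rng.mpr hy0
  have h4 : ∀ i, Tendsto (fun m => b.repr (⟨y m, hy m⟩ : D) i) atTop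
      (𝓝 (b.repr (⟨y0, hy0D⟩ : D) i)) := by
    intro i
    have h5 : Continuous (b.coord i) := (b.coord i).continuous_of_finiteDimensional
    exact (h5.tendsto _).comp h3
  have h6 : ∀ i, Tendsto (fun m => G (φ (ψ m)) (b i : V n)) atTop (𝓝 (a i)) := by
    intro i
    have h7 := (tendsto_pi_nhds.mp ha) i
    exact h7.comp hψ
  have h8 : ∀ m, G (φ (ψ m)) (y m) =
      ∑ i, b.repr (⟨y m, hy m⟩ : D) i • G (φ (ψ m)) (b i : V n) := by
    intro m
    have h9 := congrArg (fun v : D => (v : V n)) (b.sum_repr (⟨y m, hy m⟩ : D))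
    simp only [Submodule.coe_sum, Submodule.coe_smul] at h9
    conv_lhs => rw [← h9]
    rw [map_sum]
    refine Finset.sum_congr rfl fun i _ => ?_
    rw [map_smul]
  have h10 : Q y0 = ∑ i, b.repr (⟨y0, hy0D⟩ : D) i • a i := by
    have h11 : Q y0 = (b.constr ℝ a : D →ₗ[ℝ] V n) ⟨y0, hy0D⟩ := by
      rw [← hQ]
      rfl
    rw [h11, Module.Basis.constr_apply_fintype]
    refine Finset.sum_congr rfl fun i _ => ?_
    rfl
  rw [h10]
  simp only [h8]
  exact tendsto_finsetSum _ fun i _ => (h4 i).smul (h6 i)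

/-- the scaled action as a linear map -/
noncomputable def sl (s : ℝ) (g : GL (Fin n) ℝ) : V n →ₗ[ℝ] V n :=
  s • Matrix.mulVecLin (g : Matrix (Fin n) (Fin n) ℝ)

theorem sl_apply (s : ℝ) (g : GL (Fin n) ℝ) (x : V n) : sl s g x = s • act g x := rfl

/-- order bounds give norm bounds -/
theorem nrm {C : Set (V n)} (h : PCone C) : ∃ B : ℝ, 0 < B ∧ ∀ u v : V n,
    u - v ∈ closure C → u + v ∈ closure C → ‖v‖ ≤ B * ‖u‖ := by
  obtain ⟨B, hB, hn⟩ := h.normal
  refine ⟨B * 2 + 1, by positivity, ?_⟩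
  intro u v h1 h2
  have h3 : ‖u + v‖ ≤ B * ‖(2 : ℝ) • u‖ := by
    refine hn _ _ h2 ?_
    have h4 : (2 : ℝ) • u - (u + v) = u - v := by rw [two_smul]; abel
    rw [h4]
    exact h1
  have h5 : v = (u + v) - u := by abel
  have h6 : ‖v‖ ≤ ‖u + v‖ + ‖u‖ := by
    conv_lhs => rw [h5]
    exact norm_sub_le _ _
  rw [norm_smul] at h3
  have h7 : ‖(2 : ℝ)‖ = 2 := by norm_num
  rw [h7] at h3
  nlinarith


/-- the limits give all the fields of `ZL` -/
theorem finish (TBF : TbfStmt) {C : Set (V n)} {Γ Γ₀ : Subgroup (GL (Fin n) ℝ)}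
    {T : (Fin K → V n) → Prop} {c : Finset (Fin K) → ℕ} (h : TB C Γ Γ₀ T c) {w : Fin K → V n}
    (hw : T w) (S : Finset (Fin K)) (θ : ℕ → ℝ) (g : ℕ → GL (Fin n) ℝ) (s : ℕ → ℝ)
    (hg : ∀ m, g m ∈ Γ₀) (hs : ∀ m, 0 < s m) {W : Fin K → V n} (hW : T W)
    (P Q : V n →ₗ[ℝ] V n)
    (lim : ∀ i, Tendsto (fun m => s m • act (g m) ((if i ∈ S then Real.exp (θ m) else 1) • w i))
      atTop (𝓝 (W i)))
    (limP : ∀ (y : ℕ → V n) (y0 : V n), Tendsto y atTop (𝓝 y0) →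
      Tendsto (fun m => s m • act (g m) (y m)) atTop (𝓝 (P y0)))
    (limQ : ∀ (y : ℕ → V n) (y0 : V n), (∀ m, y m ∈ BI C w S) → Tendsto y atTop (𝓝 y0) →
      Tendsto (fun m => (s m * Real.exp (θ m)) • act (g m) (y m)) atTop (𝓝 (Q y0))) :
    ZL C T w S θ g s W P Q := by
  classical
  have hP := h.cc.toPCone
  obtain ⟨t1, t2, t3, t4, t5, t6, t7, t8, t9, t10, t11, t12, t13⟩ := TBF n C Γ Γ₀ K T c h w hw
  have hgΓ : ∀ m, g m ∈ Γ := fun m => h.sub (hg m)
  have hpC : ∑ i, W i ∈ C := (h.pes W hW).1.sum_mem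
  have hwcl : ∀ i, w i ∈ closure C := (h.pes w hw).1.cl
  have hWcl : ∀ i, W i ∈ closure C := (h.pes W hW).1.cl
  -- the moving point
  let pm : ℕ → V n := fun m => ∑ i, (if i ∈ S then Real.exp (θ m) else 1) • w i
  have hpm : ∀ m, pm m = Real.exp (θ m) • fS w S + fS w Sᶜ := by
    intro m
    show ∑ i, (if i ∈ S then Real.exp (θ m) else 1) • w i = _
    rw [← Finset.sum_add_sum_compl S]
    unfold fS
    rw [Finset.smul_sum]
    congr 1
    · refine Finset.sum_congr rfl fun i hi => ?_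
      rw [if_pos hi]
    · refine Finset.sum_congr rfl fun i hi => ?_
      rw [if_neg (Finset.mem_compl.mp hi), one_smul]
  have hpmlim : Tendsto (fun m => s m • act (g m) (pm m)) atTop (𝓝 (∑ i, W i)) := by
    have h1 : ∀ m, s m • act (g m) (pm m) =
        ∑ i, s m • act (g m) ((if i ∈ S then Real.exp (θ m) else 1) • w i) := by
      intro m
      show s m • act (g m) (∑ i, (if i ∈ S then Real.exp (θ m) else 1) • w i) = _
      rw [CC.act_sum, Finset.smul_sum]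
    simp only [h1]
    exact tendsto_finsetSum _ fun i _ => lim i
  -- images of the vertices
  have hPw : ∀ i, i ∉ S → P (w i) = W i := by
    intro i hi
    have h1 := limP (fun _ => w i) (w i) tendsto_const_nhds
    refine tendsto_nhds_unique h1 ((lim i).congr fun m => ?_)
    rw [if_neg hi, one_smul]
  have hQw : ∀ i, i ∈ S → Q (w i) = W i := by
    intro i hi
    have h1 := limQ (fun _ => w i) (w i) (fun _ => (t6 i S).mpr hi) tendsto_const_nhds
    refine tendsto_nhds_unique h1 ((lim i).congr fun m => ?_)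
    rw [if_pos hi, CC.act_smul, smul_smul]
  have hPcl : ∀ x ∈ closure C, P x ∈ closure C := by
    intro x hx
    refine isClosed_closure.mem_of_tendsto (limP (fun _ => x) x tendsto_const_nhds)
      (Eventually.of_forall fun m => ?_)
    exact (h.cc.sact_cl_iff (hgΓ m) (hs m)).mpr hx
  have hQcl : ∀ x ∈ closure C, x ∈ BI C w S → Q x ∈ closure C := by
    intro x hx hxS
    refine isClosed_closure.mem_of_tendsto (limQ (fun _ => x) x (fun _ => hxS) tendsto_const_nhds)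
      (Eventually.of_forall fun m => ?_)
    exact (h.cc.sact_cl_iff (hgΓ m) (mul_pos (hs m) (Real.exp_pos _))).mpr hx
  -- injectivity
  have injP : ∀ y ∈ BI C w Sᶜ, P y ∈ closure C → y ∈ closure C := by
    intro y hy hPy
    refine cl_of_eps (f := fS w Sᶜ) fun ε hε => ?_
    have h1 : Tendsto (fun m => s m • act (g m) (y + ε • pm m)) atTop
        (𝓝 (P y + ε • ∑ i, W i)) := by
      have h2 := (limP (fun _ => y) y tendsto_const_nhds).add (hpmlim.const_smul ε)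
      refine h2.congr fun m => ?_
      rw [CC.act_add, CC.act_smul, smul_add, smul_comm ε (s m)]
    have h3 : P y + ε • ∑ i, W i ∈ C := hP.cl_add' hPy (hP.smul _ hpC ε hε)
    obtain ⟨m, hm⟩ := (h1.eventually (hP.isOpen.mem_nhds h3)).exists
    have h4 : y + ε • pm m ∈ C := (h.cc.sact_mem_iff (hgΓ m) (hs m)).mp hm
    refine t3 Sᶜ _ (Submodule.add_mem _ hy (Submodule.smul_mem _ _ (t1 Sᶜ).1))
      (fun _ => ε * Real.exp (θ m)) ?_
    have h5 : y + ε • fS w Sᶜ + ∑ i ∈ Sᶜᶜ, (ε * Real.exp (θ m)) • w i = y + ε • pm m := by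
      rw [compl_compl, hpm m, ← Finset.smul_sum, smul_add, smul_smul]
      unfold fS
      abel
    rw [h5]
    exact subset_closure h4
  have injQ : ∀ y ∈ BI C w S, Q y ∈ closure C → y ∈ closure C := by
    intro y hy hQy
    refine cl_of_eps (f := fS w S) fun ε hε => ?_
    have h1 : Tendsto (fun m => s m • act (g m) (Real.exp (θ m) • y + ε • pm m)) atTop
        (𝓝 (Q y + ε • ∑ i, W i)) := by
      have h2 := (limQ (fun _ => y) y (fun _ => hy) tendsto_const_nhds).add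
        (hpmlim.const_smul ε)
      refine h2.congr fun m => ?_
      rw [CC.act_add, CC.act_smul, CC.act_smul, smul_add, smul_comm ε (s m), smul_smul, smul_smul]
    have h3 : Q y + ε • ∑ i, W i ∈ C := hP.cl_add' hQy (hP.smul _ hpC ε hε)
    obtain ⟨m, hm⟩ := (h1.eventually (hP.isOpen.mem_nhds h3)).exists
    have h4 : Real.exp (θ m) • y + ε • pm m ∈ C := (h.cc.sact_mem_iff (hgΓ m) (hs m)).mp hm
    have he : 0 < Real.exp (θ m) := Real.exp_pos _
    refine t3 S _ (Submodule.add_mem _ hy (Submodule.smul_mem _ _ (t1 S).1))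
      (fun _ => ε * (Real.exp (θ m))⁻¹) ?_
    have h5 : y + ε • fS w S + ∑ i ∈ Sᶜ, (ε * (Real.exp (θ m))⁻¹) • w i =
        (Real.exp (θ m))⁻¹ • (Real.exp (θ m) • y + ε • pm m) := by
      have h6 : ∑ i ∈ Sᶜ, w i = fS w Sᶜ := rfl
      rw [hpm m, ← Finset.smul_sum, h6, smul_add, smul_smul, inv_mul_cancel₀ he.ne', one_smul,
        smul_add, smul_add, smul_smul, smul_smul, smul_smul]
      have h7 : (Real.exp (θ m))⁻¹ * ε * Real.exp (θ m) = ε := by
        field_simp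
      rw [h7, mul_comm ε (Real.exp (θ m))⁻¹]
      abel
    rw [h5]
    exact hP.cl_smul (subset_closure h4) (inv_pos.mpr he).le
  -- images
  have key : ∀ (R : V n →ₗ[ℝ] V n) (J : Finset (Fin K)),
      (∀ x ∈ closure C, x ∈ BI C w J → R x ∈ closure C) →
      (∀ y ∈ BI C w J, R y ∈ closure C → y ∈ closure C) →
      (∀ i ∈ J, R (w i) = W i) → (BI C w J).map R = BI C W J := by
    intro R J hRcl hRinj hRw
    have hRf : R (fS w J) = fS W J := by
      unfold fS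
      rw [map_sum]
      exact Finset.sum_congr rfl hRw
    have hle : (BI C w J).map R ≤ BI C W J := by
      rintro _ ⟨z, hz, rfl⟩
      obtain ⟨M, hM, h1, h2⟩ := unt_two hP (t1 J) hz
      have hfJ : M • fS w J ∈ BI C w J := Submodule.smul_mem _ _ (t1 J).1
      have h3 := hRcl _ h1 (Submodule.sub_mem _ hfJ hz)
      have h4 := hRcl _ h2 (Submodule.add_mem _ hfJ hz)
      rw [map_sub, map_smul, hRf] at h3
      rw [map_add, map_smul, hRf] at h4
      exact fce hP hWcl h3 h4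
    refine Submodule.eq_of_le_of_finrank_eq hle ?_
    rw [h.dim W hW J, ← LinearMap.range_domRestrict]
    rw [LinearMap.finrank_range_of_inj, h.dim w hw J]
    rw [injective_iff_map_eq_zero]
    rintro ⟨z, hz⟩ hz0
    have hz1 : R z = 0 := hz0
    have h1 : z ∈ closure C := hRinj z hz (by rw [hz1]; exact hP.zero_cl)
    have h2 : -z ∈ closure C :=
      hRinj (-z) (Submodule.neg_mem _ hz) (by rw [map_neg, hz1, neg_zero]; exact hP.zero_cl)
    have h3 := hP.salient z h1 h2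
    exact Subtype.ext h3
  refine ⟨hW, lim, limP, limQ, injP, injQ, ?_, ?_⟩
  · intro J hJ
    refine key P J (fun x hx _ => hPcl x hx) (fun y hy => injP y (t5 J Sᶜ hJ hy)) ?_
    intro i hi
    exact hPw i (Finset.mem_compl.mp (hJ hi))
  · intro J hJ
    refine key Q J (fun x hx hxJ => hQcl x hx (t5 J S hJ hxJ))
      (fun y hy => injQ y (t5 J S hJ hy)) ?_
    intro i hi
    exact hQw i (hJ hi)

theorem zlx (TBF : TbfStmt) (BIN : BinStmt) : ZlxStmt := by
  classical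
  intro n C Γ Γ₀ K T c h w hw S θ hθ
  have hP := h.cc.toPCone
  obtain ⟨B, hB, hnrm⟩ := nrm hP
  obtain ⟨t1, t2, t3, t4, t5, t6, t7, t8, t9, t10, t11, t12, t13⟩ := TBF n C Γ Γ₀ K T c h w hw
  have hwcl : ∀ i, w i ∈ closure C := (h.pes w hw).1.cl
  have hfC : ∑ i, w i ∈ C := (h.pes w hw).1.sum_mem
  -- first subsequence
  let ρ : ℕ → Fin K → ℝ := fun m i => if i ∈ S then Real.exp (θ m) else 1
  have hρ : ∀ m i, 0 < ρ m i := by
    intro m i
    show 0 < (if i ∈ S then Real.exp (θ m) else 1)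
    split_ifs
    · exact Real.exp_pos _
    · exact one_pos
  have hyT : ∀ m, T (fun i => ρ m i • w i) := fun m => h.scl w hw (ρ m) (hρ m)
  obtain ⟨φ1, g1, s1, p, hφ1, hg1, hs1, hpC, hlim1⟩ := h.cpt _ hyT
  have hyT2 : ∀ m, T (fun i => s1 m • act (g1 m) (ρ (φ1 m) i • w i)) := fun m =>
    ((BIN n C Γ Γ₀ K T c h _ (hyT (φ1 m))).2.1 (g1 m) (hg1 m) (s1 m) (hs1 m)).1
  have hlim2 : Tendsto (fun m => ∑ i, s1 m • act (g1 m) (ρ (φ1 m) i • w i)) atTop (𝓝 p) := by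
    refine hlim1.congr fun m => ?_
    rw [CC.act_sum, Finset.smul_sum]
  have hK : 2 ≤ Fintype.card (Fin K) := by
    rw [Fintype.card_fin]
    have := h.three
    omega
  obtain ⟨φ2, W, hφ2, hlimW, hWp, -⟩ := Pool.Agent.PFS.H37.lpsF n C Γ h.cc (Fin K) hK
    (fun m i => s1 m • act (g1 m) (ρ (φ1 m) i • w i)) p (fun m => h.pes _ (hyT2 m)) hpC hlim2
  have hW : T W := by
    refine h.cld _ W (fun m => hyT2 (φ2 m)) hlimW ?_
    rw [hWp]
    exact hpC
  -- second subsequence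
  have hφ12 : StrictMono (fun m => φ1 (φ2 m)) := hφ1.comp hφ2
  have hθ2 : Tendsto (fun m => θ (φ1 (φ2 m))) atTop atTop := hθ.comp hφ12.tendsto_atTop
  have hsum : Tendsto (fun m => s1 (φ2 m) • act (g1 (φ2 m)) (∑ i, ρ (φ1 (φ2 m)) i • w i)) atTop
      (𝓝 p) := hlim1.comp hφ2.tendsto_atTop
  have hbP : ∀ v ∈ (⊤ : Submodule ℝ (V n)), ∃ B' : ℝ,
      ∀ᶠ m in atTop, ‖sl (s1 (φ2 m)) (g1 (φ2 m)) v‖ ≤ B' := by
    intro v _
    obtain ⟨M, hM, hM1, hM2⟩ := absorb_two hP hfC v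
    refine ⟨B * (M * (‖p‖ + 1)), ?_⟩
    have h1 : ∀ᶠ m in atTop, ‖s1 (φ2 m) • act (g1 (φ2 m)) (∑ i, ρ (φ1 (φ2 m)) i • w i)‖ <
        ‖p‖ + 1 := (hsum.norm).eventually_lt_const (by linarith)
    filter_upwards [h1, hθ2.eventually_ge_atTop 0] with m hm hm0
    have h2 : (∑ i, ρ (φ1 (φ2 m)) i • w i) - ∑ i, w i ∈ closure C := by
      rw [← Finset.sum_sub_distrib]
      refine hP.cl_sum fun i _ => ?_
      have h3 : ρ (φ1 (φ2 m)) i • w i - w i = (ρ (φ1 (φ2 m)) i - 1) • w i := by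
        rw [sub_smul, one_smul]
      rw [h3]
      refine hP.cl_smul (hwcl i) ?_
      show 0 ≤ (if i ∈ S then Real.exp (θ (φ1 (φ2 m))) else 1) - 1
      split_ifs
      · have := Real.one_le_exp hm0
        linarith
      · simp
    have h4 : ∀ z : V n, M • (∑ i, w i) + z ∈ closure C →
        M • (∑ i, ρ (φ1 (φ2 m)) i • w i) + z ∈ closure C := by
      intro z hz
      have h5 : M • (∑ i, ρ (φ1 (φ2 m)) i • w i) + z =
          M • ((∑ i, ρ (φ1 (φ2 m)) i • w i) - ∑ i, w i) + (M • (∑ i, w i) + z) := by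
        rw [smul_sub]
        abel
      rw [h5]
      exact hP.cl_add (hP.cl_smul h2 hM.le) hz
    have h6 : M • (∑ i, ρ (φ1 (φ2 m)) i • w i) - v ∈ closure C := by
      rw [sub_eq_add_neg]
      refine h4 _ ?_
      rw [← sub_eq_add_neg]
      exact subset_closure hM1
    have h7 : M • (∑ i, ρ (φ1 (φ2 m)) i • w i) + v ∈ closure C := h4 _ (subset_closure hM2)
    have hgm := h.sub (hg1 (φ2 m))
    have h8 := (h.cc.sact_cl_iff hgm (hs1 (φ2 m))).mpr h6
    have h9 := (h.cc.sact_cl_iff hgm (hs1 (φ2 m))).mpr h7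
    rw [CC.act_sub, CC.act_smul, smul_sub, smul_comm (s1 (φ2 m)) M] at h8
    rw [CC.act_add, CC.act_smul, smul_add, smul_comm (s1 (φ2 m)) M] at h9
    have h10 := hnrm _ _ h8 h9
    rw [sl_apply]
    refine h10.trans ?_
    rw [norm_smul, Real.norm_of_nonneg hM.le]
    gcongr
  obtain ⟨φ3, P, hφ3, hPlim⟩ := lin_sub ⊤ (fun m => sl (s1 (φ2 m)) (g1 (φ2 m))) hbP
  -- third subsequence
  have hφ13 : StrictMono (fun m => φ1 (φ2 (φ3 m))) := hφ12.comp hφ3
  have hθ3 : Tendsto (fun m => θ (φ1 (φ2 (φ3 m)))) atTop atTop := hθ.comp hφ13.tendsto_atTop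
  have hlim3 : ∀ i, Tendsto (fun m => s1 (φ2 (φ3 m)) • act (g1 (φ2 (φ3 m)))
      (ρ (φ1 (φ2 (φ3 m))) i • w i)) atTop (𝓝 (W i)) := fun i =>
    (hlimW i).comp hφ3.tendsto_atTop
  have hbQ : ∀ v ∈ BI C w S, ∃ B' : ℝ, ∀ᶠ m in atTop,
      ‖sl (s1 (φ2 (φ3 m)) * Real.exp (θ (φ1 (φ2 (φ3 m))))) (g1 (φ2 (φ3 m))) v‖ ≤ B' := by
    intro v hv
    obtain ⟨M, hM, hM1, hM2⟩ := unt_two hP (t1 S) hv
    refine ⟨B * (M * (‖∑ i ∈ S, W i‖ + 1)), ?_⟩
    have h0 : Tendsto (fun m => ∑ i ∈ S, s1 (φ2 (φ3 m)) • act (g1 (φ2 (φ3 m)))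
        (ρ (φ1 (φ2 (φ3 m))) i • w i)) atTop (𝓝 (∑ i ∈ S, W i)) :=
      tendsto_finsetSum _ fun i _ => hlim3 i
    have h1 : ∀ᶠ m in atTop, ‖∑ i ∈ S, s1 (φ2 (φ3 m)) • act (g1 (φ2 (φ3 m)))
        (ρ (φ1 (φ2 (φ3 m))) i • w i)‖ < ‖∑ i ∈ S, W i‖ + 1 :=
      (h0.norm).eventually_lt_const (by linarith)
    filter_upwards [h1] with m hm
    have he : 0 < s1 (φ2 (φ3 m)) * Real.exp (θ (φ1 (φ2 (φ3 m)))) :=
      mul_pos (hs1 _) (Real.exp_pos _)
    have h2 : ∑ i ∈ S, s1 (φ2 (φ3 m)) • act (g1 (φ2 (φ3 m))) (ρ (φ1 (φ2 (φ3 m))) i • w i) =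
        (s1 (φ2 (φ3 m)) * Real.exp (θ (φ1 (φ2 (φ3 m))))) • act (g1 (φ2 (φ3 m))) (fS w S) := by
      unfold fS
      rw [CC.act_sum, Finset.smul_sum]
      refine Finset.sum_congr rfl fun i hi => ?_
      have h3 : ρ (φ1 (φ2 (φ3 m))) i = Real.exp (θ (φ1 (φ2 (φ3 m)))) := if_pos hi
      rw [h3, CC.act_smul, smul_smul]
    rw [h2] at hm
    have hgm := h.sub (hg1 (φ2 (φ3 m)))
    have h8 := (h.cc.sact_cl_iff hgm he).mpr hM1
    have h9 := (h.cc.sact_cl_iff hgm he).mpr hM2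
    rw [CC.act_sub, CC.act_smul, smul_sub, smul_comm _ M] at h8
    rw [CC.act_add, CC.act_smul, smul_add, smul_comm _ M] at h9
    have h10 := hnrm _ _ h8 h9
    rw [sl_apply]
    refine h10.trans ?_
    rw [norm_smul, Real.norm_of_nonneg hM.le]
    gcongr
  obtain ⟨φ4, Q, hφ4, hQlim⟩ := lin_sub (BI C w S)
    (fun m => sl (s1 (φ2 (φ3 m)) * Real.exp (θ (φ1 (φ2 (φ3 m))))) (g1 (φ2 (φ3 m)))) hbQ
  refine ⟨fun m => φ1 (φ2 (φ3 (φ4 m))), fun m => g1 (φ2 (φ3 (φ4 m))),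
    fun m => s1 (φ2 (φ3 (φ4 m))), W, P, Q, hφ13.comp hφ4, fun m => hg1 _, fun m => hs1 _, ?_⟩
  refine finish TBF h hw S _ _ _ (fun m => hg1 _) (fun m => hs1 _) hW P Q ?_ ?_ ?_
  · intro i
    exact (hlim3 i).comp hφ4.tendsto_atTop
  · intro y y0 hy
    exact hPlim φ4 hφ4.tendsto_atTop y y0 (fun _ => Submodule.mem_top) hy
  · intro y y0 hyD hy
    exact hQlim id tendsto_id y y0 hyD hy

end Pool.Agent.NBT.H80
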